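import Pool.Agent.H343.AN.StE

/-!
# AN-D3 (helper127): near pairs of minimal segments
-/

set_option autoImplicit false
set_option linter.unusedSectionVars false

namespace Pool.Agent.H127.AN

open Pool.Agent.TH68 Pool.Agent.Helper97.Hyp Pool.Agent.H343.AN

lemma red_symm {Γ : Type*} [Group Γ] {W : WNorm Γ} {N : Subgroup Γ} {p q : Pt W}
    (h : Red N p q) : Red N q p := by
  intro n hn
  have h1 := h n⁻¹ (N.inv_mem hn)
  have h2 : dist p (n⁻¹ • q) = dist q (n • p) := by
    rw [← dist_smul n p, smul_inv_smul, dist_comm]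
  rw [dist_comm q p, ← h2]
  exact h1

theorem d3 (_hB : ToolB) (h1 : S_d1) (h2 : S_d2) : S_d3 := by
  intro Γ _ W 𝒜 _ Y R hρ o u v p m hm hu hv huv hp hd
  have hδ := Y.hδ
  have hθ := Y.hθ
  obtain ⟨y, z, m₁, hm₁, hy, hz, hyz, hyu⟩ := h2 Y R hρ (x := o) (y₁ := u) (y₂ := u)
    (z₁ := m • v) (z₂ := m • v) (w := m • o)
    { r₀ := hu
      r₂ := huv
      r₄ := (red_symm hv).smul m
      j₁ := by
        rw [dist_self]
        linarith
      j₃ := by
        rw [dist_self]
        linarith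
      cl := ⟨m, hm, rfl⟩ }
  -- the point on `[o, v]`
  have hz' : exc o v (m⁻¹ • z) = 0 := by
    have h3 := exc_smul m⁻¹ (m • v) (m • o) z
    rw [inv_smul_smul, inv_smul_smul, exc_comm] at h3
    rw [h3, hz]
  have hyz' : dist y ((m₁ * m) • m⁻¹ • z) ≤ 500 * Y.θ := by
    rw [mul_smul, smul_inv_smul]
    exact hyz
  -- the point `p` is lower than `y`
  have hpy : exc o y p ≤ 2 * Y.δ := by
    rcases exc_split Y.hyp o u y p with h3 | h3
    · linarith
    · exfalso
      rw [hp, zero_add] at h3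
      have h4 : dist p u ≤ dist y u + 2 * Y.δ := by
        unfold exc at h3
        have := dist_nonneg (x := y) (y := p)
        linarith
      linarith
  obtain ⟨p₁, hp₁, hpp⟩ := near_geod Y.hyp hpy
  rcases h1 Y R hρ (o := o) (u := y) (v := m⁻¹ • z) (p := p₁) (m := m₁ * m)
    (R.N.mul_mem hm₁ hm) (hu.left hy) (hv.left hz') hyz' hp₁ with
    ⟨m', hm', q, hq, hpq⟩ | ⟨B, m', hm', y₂, z₂, hy₂, hz₂, hB1, hB2, s, hs, hps⟩
  · left
    refine ⟨m', hm', q, (exc_zero_trans' hz' hq).1, ?_⟩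
    have := dist_triangle p p₁ (m' • q)
    linarith
  · right
    refine ⟨B, m', hm', y₂, z₂, (exc_zero_trans' hy hy₂).1, (exc_zero_trans' hz' hz₂).1, hB1, hB2,
      s, hs, ?_⟩
    have := dist_triangle p p₁ s
    linarith

end Pool.Agent.H127.AN
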